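import Mathlib

/-! Project SN, lower tail: abstract lemmas. -/

set_option autoImplicit false

namespace Pool.Agent.Y433.SN

open Finset

/-- Cauchy-Schwarz on the doubling cells. -/
theorem doubling {ι : Type*} (Z : Finset ι) (a b : ι → ℝ) (c' C X K M : ℝ)
    (ha : ∀ z ∈ Z, 0 ≤ a z) (hX : 0 ≤ X) (hc' : 0 < c') (hK : 0 < K)
    (hM : 0 < M) (hZ : (Z.card : ℝ) ≤ M) (h1 : c' * X ≤ ∑ z ∈ Z, a z)
    (h2 : ∑ z ∈ Z, b z ≤ C * X) (hCK : C ≤ K * (c' / 2)) (hb : ∀ z ∈ Z, 0 ≤ b z)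
    [DecidablePred (fun z => b z ≤ K * a z)] :
    (c' * X / 2) ^ 2 / M ≤ ∑ z ∈ Z.filter (fun z => b z ≤ K * a z), a z ^ 2 := by
  classical
  have h3 : ∑ z ∈ Z.filter (fun z => ¬ b z ≤ K * a z), a z ≤ c' * X / 2 := by
    have : K * ∑ z ∈ Z.filter (fun z => ¬ b z ≤ K * a z), a z ≤ C * X := by
      calc K * ∑ z ∈ Z.filter (fun z => ¬ b z ≤ K * a z), a z
          = ∑ z ∈ Z.filter (fun z => ¬ b z ≤ K * a z), K * a z := by rw [Finset.mul_sum]
        _ ≤ ∑ z ∈ Z.filter (fun z => ¬ b z ≤ K * a z), b z := by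
            refine Finset.sum_le_sum fun z hz => ?_
            rw [Finset.mem_filter] at hz
            exact (not_le.1 hz.2).le
        _ ≤ ∑ z ∈ Z, b z :=
            Finset.sum_le_sum_of_subset_of_nonneg (Finset.filter_subset _ _)
              (fun z hz _ => hb z hz)
        _ ≤ C * X := h2
    have h4 : C * X ≤ K * (c' / 2) * X := mul_le_mul_of_nonneg_right hCK hX
    have h5 : K * ∑ z ∈ Z.filter (fun z => ¬ b z ≤ K * a z), a z ≤ K * (c' * X / 2) := by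
      calc _ ≤ C * X := this
        _ ≤ K * (c' / 2) * X := h4
        _ = _ := by ring
    exact le_of_mul_le_mul_left h5 hK
  have h4 : c' * X / 2 ≤ ∑ z ∈ Z.filter (fun z => b z ≤ K * a z), a z := by
    have := Finset.sum_filter_add_sum_filter_not Z (fun z => b z ≤ K * a z) a
    linarith
  have h5 := sq_sum_le_card_mul_sum_sq (s := Z.filter (fun z => b z ≤ K * a z)) (f := a)
  have h6 : ((Z.filter (fun z => b z ≤ K * a z)).card : ℝ) ≤ M := by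
    refine le_trans ?_ hZ
    exact_mod_cast Finset.card_le_card (Finset.filter_subset _ _)
  have h7 : 0 ≤ ∑ z ∈ Z.filter (fun z => b z ≤ K * a z), a z ^ 2 :=
    Finset.sum_nonneg fun _ _ => sq_nonneg _
  rw [div_le_iff₀ hM]
  have h8 : 0 ≤ c' * X / 2 := by positivity
  calc (c' * X / 2) ^ 2 ≤ (∑ z ∈ Z.filter (fun z => b z ≤ K * a z), a z) ^ 2 :=
        pow_le_pow_left₀ h8 h4 2
    _ ≤ _ := h5
    _ ≤ M * ∑ z ∈ Z.filter (fun z => b z ≤ K * a z), a z ^ 2 :=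
        mul_le_mul_of_nonneg_right h6 h7
    _ = _ := by ring

/-- Markov's inequality. -/
theorem markov {ι : Type*} (P : Finset ι) (μ : ι → ℝ) (N : ι → ℕ) (m : ℕ) (Q : ι → Prop)
    [DecidablePred Q] (a b : ℝ) (hμ : ∀ T ∈ P, 0 ≤ μ T) (hm : 1 ≤ m)
    (h1 : a ≤ ∑ T ∈ P.filter Q, μ T) (h2 : ∑ T ∈ P, μ T * (N T : ℝ) ≤ b)
    (h3 : b ≤ m * (a / 2)) :
    a / 2 ≤ ∑ T ∈ P.filter (fun T => Q T ∧ N T ≤ m), μ T := by
  classical
  have h4 : ∑ T ∈ P.filter Q, μ T ≤ ∑ T ∈ P.filter (fun T => Q T ∧ N T ≤ m), μ T +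
      ∑ T ∈ P.filter (fun T => ¬ N T ≤ m), μ T := by
    simp_rw [Finset.sum_filter]
    rw [← Finset.sum_add_distrib]
    refine Finset.sum_le_sum fun T hT => ?_
    have := hμ T hT
    by_cases hQ : Q T
    · by_cases hN : N T ≤ m
      · simp [hQ, hN]
      · simp [hQ, hN]
    · simp only [hQ, if_false, false_and]
      split_ifs <;> linarith
  have hm0 : (0:ℝ) < m := by exact_mod_cast hm
  have h5 : m * ∑ T ∈ P.filter (fun T => ¬ N T ≤ m), μ T ≤ b := by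
    calc m * ∑ T ∈ P.filter (fun T => ¬ N T ≤ m), μ T
        = ∑ T ∈ P.filter (fun T => ¬ N T ≤ m), μ T * m := by
          rw [Finset.mul_sum]; exact Finset.sum_congr rfl fun _ _ => by ring
      _ ≤ ∑ T ∈ P.filter (fun T => ¬ N T ≤ m), μ T * (N T : ℝ) := by
          refine Finset.sum_le_sum fun T hT => ?_
          rw [Finset.mem_filter] at hT
          apply mul_le_mul_of_nonneg_left _ (hμ T hT.1)
          exact_mod_cast (not_le.1 hT.2).le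
      _ ≤ ∑ T ∈ P, μ T * (N T : ℝ) :=
          Finset.sum_le_sum_of_subset_of_nonneg (Finset.filter_subset _ _)
            (fun T hT _ => mul_nonneg (hμ T hT) (Nat.cast_nonneg _))
      _ ≤ b := h2
  have h6 : ∑ T ∈ P.filter (fun T => ¬ N T ≤ m), μ T ≤ a / 2 :=
    le_of_mul_le_mul_left (h5.trans h3) hm0
  linarith

/-- Overlaps. -/
theorem overlap {ι κ : Type*} (Z : Finset κ) (P : Finset ι) (μ : ι → ℝ)
    (Q : ι → Prop) (R : κ → ι → Prop) [DecidablePred Q] [∀ z, DecidablePred (R z)] (M : ℕ)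
    (hμ : ∀ T ∈ P, 0 ≤ μ T) (h1 : ∀ z ∈ Z, ∀ T ∈ P, R z T → Q T)
    (h2 : ∀ T ∈ P, Q T → (Z.filter (fun z => R z T)).card ≤ M) :
    ∑ z ∈ Z, ∑ T ∈ P.filter (R z), μ T ≤ M * ∑ T ∈ P.filter Q, μ T := by
  simp_rw [Finset.sum_filter]
  rw [Finset.sum_comm, Finset.mul_sum]
  refine Finset.sum_le_sum fun T hT => ?_
  by_cases hQ : Q T
  · rw [if_pos hQ, ← Finset.sum_filter, Finset.sum_const, nsmul_eq_mul]
    apply mul_le_mul_of_nonneg_right _ (hμ T hT)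
    exact_mod_cast h2 T hT hQ
  · rw [if_neg hQ, mul_zero]
    apply le_of_eq
    apply Finset.sum_eq_zero
    intro z hz
    rw [if_neg]
    exact fun h => hQ (h1 z hz T hT h)

/-- First moment as a sum over the points. -/
theorem sum_card {E : Type*} [DecidableEq E] (B : Finset E) (μ : Finset E → ℝ) :
    ∑ T ∈ B.powerset, μ T * (T.card : ℝ) =
      ∑ e ∈ B, ∑ T ∈ B.powerset.filter (fun T => e ∈ T), μ T := by
  simp_rw [Finset.sum_filter]
  rw [Finset.sum_comm]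
  refine Finset.sum_congr rfl fun T hT => ?_
  rw [← Finset.sum_filter, Finset.sum_const, nsmul_eq_mul]
  rw [Finset.filter_mem_eq_inter, Finset.inter_eq_right.2 (Finset.mem_powerset.1 hT)]
  ring

/-- Choice of the scale. -/
theorem scale (A r0 : ℕ) (C5 ε : ℝ) (hA : 1 ≤ A) (hC5 : 0 < C5) (hε : 0 < ε) :
    ∃ (M0 : ℕ) (c : ℝ), 1 ≤ M0 ∧ 0 < c ∧ ∀ m n : ℕ, M0 ≤ m → (m:ℝ) ≤ (n:ℝ) ^ (3 / 4 : ℝ) →
      ∃ r : ℕ, 1 ≤ r ∧ r0 ≤ r ∧ C5 * ((8 * (A * r) : ℕ) : ℝ) ^ (3 / 4 : ℝ) ≤ m ∧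
        ((128 * (A * r) + 1 : ℕ) : ℝ) ≤ ε * n ∧
        c * (m:ℝ) ^ (4 / 3 : ℝ) ≤ ((A * r : ℕ) : ℝ) := by
  have hA1 : (1:ℝ) ≤ A := by exact_mod_cast hA
  set D : ℝ := max C5 ((512 / ε) ^ (3 / 4 : ℝ)) with hD
  have hD0 : 0 < D := lt_of_lt_of_le hC5 (le_max_left _ _)
  have hD43 : 512 / ε ≤ D ^ (4 / 3 : ℝ) := by
    have h1 : ((512 / ε) ^ (3 / 4 : ℝ)) ^ (4 / 3 : ℝ) ≤ D ^ (4 / 3 : ℝ) :=
      Real.rpow_le_rpow (by positivity) (le_max_right _ _) (by norm_num)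
    rw [← Real.rpow_mul (by positivity)] at h1
    norm_num at h1
    exact h1
  obtain ⟨M0, hM0⟩ := exists_nat_ge (max (4 / ε) (D * (16 * A * (r0 + 1))) + 1)
  have hM1 : 1 ≤ M0 := by
    have : (1:ℝ) ≤ M0 := by
      have : 0 < max (4 / ε) (D * (16 * A * (r0 + 1))) := lt_max_of_lt_left (by positivity)
      linarith
    exact_mod_cast this
  refine ⟨M0, 1 / (16 * D ^ (4 / 3 : ℝ)), hM1, by positivity, ?_⟩
  intro m n hm hmn
  have hm' : (M0:ℝ) ≤ m := by exact_mod_cast hm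
  have hm1 : (1:ℝ) ≤ m := by exact_mod_cast (hM1.trans hm)
  have hm0 : (0:ℝ) < m := by linarith
  have hmε : 4 / ε ≤ m := by
    have := le_max_left (4 / ε) (D * (16 * A * (r0 + 1)))
    linarith
  have hmD : D * (16 * A * (r0 + 1)) ≤ m := by
    have := le_max_right (4 / ε) (D * (16 * A * (r0 + 1)))
    linarith
  have hm43 : (m:ℝ) ^ (4 / 3 : ℝ) ≤ n := by
    have h1 : (m:ℝ) ^ (4 / 3 : ℝ) ≤ ((n:ℝ) ^ (3 / 4 : ℝ)) ^ (4 / 3 : ℝ) :=
      Real.rpow_le_rpow hm0.le hmn (by norm_num)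
    rw [← Real.rpow_mul (Nat.cast_nonneg _)] at h1
    norm_num at h1
    exact h1
  have hmm : (m:ℝ) ≤ (m:ℝ) ^ (4 / 3 : ℝ) := by
    calc (m:ℝ) = (m:ℝ) ^ (1:ℝ) := (Real.rpow_one _).symm
      _ ≤ _ := Real.rpow_le_rpow_of_exponent_le hm1 (by norm_num)
  set y : ℝ := (m / D) ^ (4 / 3 : ℝ) with hy
  have hy0 : 0 < y := by positivity
  have hyD : y = (m:ℝ) ^ (4 / 3 : ℝ) / D ^ (4 / 3 : ℝ) := Real.div_rpow hm0.le hD0.le _
  have hyn : 512 * y ≤ ε * n := by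
    have h1 : y * D ^ (4 / 3 : ℝ) = (m:ℝ) ^ (4 / 3 : ℝ) := by
      rw [hyD]; field_simp
    have h2 : y * (512 / ε) ≤ n := by
      calc y * (512 / ε) ≤ y * D ^ (4 / 3 : ℝ) := mul_le_mul_of_nonneg_left hD43 hy0.le
        _ = _ := h1
        _ ≤ n := hm43
    have h3 : y * (512 / ε) * ε ≤ n * ε := mul_le_mul_of_nonneg_right h2 hε.le
    have h4 : y * (512 / ε) * ε = 512 * y := by field_simp
    linarith
  have hy16 : 16 * A * (r0 + 1) ≤ y := by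
    have h1 : 16 * A * ((r0:ℝ) + 1) ≤ m / D := by
      rw [le_div_iff₀ hD0]; linarith
    have h2 : 1 ≤ m / D := by
      have : (0:ℝ) ≤ r0 := Nat.cast_nonneg _
      nlinarith
    calc 16 * A * ((r0:ℝ) + 1) ≤ m / D := h1
      _ = (m / D) ^ (1:ℝ) := (Real.rpow_one _).symm
      _ ≤ _ := Real.rpow_le_rpow_of_exponent_le h2 (by norm_num)
  have hAp : (0:ℝ) < 8 * A := by positivity
  have f1 : (⌊y / (8 * A)⌋₊ : ℝ) ≤ y / (8 * A) := Nat.floor_le (by positivity)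
  have f2 : y / (8 * A) < ⌊y / (8 * A)⌋₊ + 1 := Nat.lt_floor_add_one _
  have hr0 : (0:ℝ) ≤ r0 := Nat.cast_nonneg _
  have h2A : 2 * ((r0:ℝ) + 1) ≤ y / (8 * A) := by
    rw [le_div_iff₀ hAp]; nlinarith
  set r : ℕ := ⌊y / (8 * A)⌋₊ with hr
  have hr1 : r0 + 1 ≤ r := by
    have : ((r0 + 1 : ℕ) : ℝ) ≤ r := by push_cast; linarith
    exact_mod_cast this
  have h8 : 8 * ((A:ℝ) * r) ≤ y := by
    rw [le_div_iff₀ hAp] at f1
    linarith
  refine ⟨r, by omega, by omega, ?_, ?_, ?_⟩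
  · push_cast
    have h1 : (8 * ((A:ℝ) * r)) ^ (3 / 4 : ℝ) ≤ y ^ (3 / 4 : ℝ) :=
      Real.rpow_le_rpow (by positivity) h8 (by norm_num)
    have h2 : y ^ (3 / 4 : ℝ) = m / D := by
      rw [hy, ← Real.rpow_mul (by positivity)]
      norm_num
    calc C5 * (8 * ((A:ℝ) * r)) ^ (3 / 4 : ℝ) ≤ D * (m / D) := by
          rw [h2] at h1
          exact mul_le_mul (le_max_left _ _) h1 (by positivity) hD0.le
      _ = m := by field_simp
  · push_cast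
    have h1 : 4 ≤ ε * n := by
      have h2 : 4 / ε ≤ n := hmε.trans (hmm.trans hm43)
      rw [div_le_iff₀ hε] at h2
      linarith
    nlinarith
  · push_cast
    have h1 : y / (8 * A) ≤ 2 * r := by
      have : (1:ℝ) ≤ r := by exact_mod_cast (by omega : 1 ≤ r)
      linarith
    have h2 : y ≤ 16 * (A * r) := by
      rw [div_le_iff₀ hAp] at h1
      linarith
    calc 1 / (16 * D ^ (4 / 3 : ℝ)) * (m:ℝ) ^ (4 / 3 : ℝ) = y / 16 := by
          rw [hyD]; field_simp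
      _ ≤ _ := by linarith

end Pool.Agent.Y433.SN
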