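import Pool.Agent.Y554.SN.Asm2
import Pool.Agent.Y554.SN.Stm3
import Pool.Agent.H389R2.NS.SumSp
import Pool.Agent.Y433.SN.LtA

/-! Project SN, lower tail: probabilities of pivotal blocks of the square. -/

set_option autoImplicit false

namespace Pool.Agent.Y433.SN

open H389NS hiding cel
open H974 H12S H985T Finset Pool.Agent.Y554.DP Pool.Agent.Y554.SN

theorem hpok : Ok (hp : Edg → ℝ) := fun e => by unfold hp; norm_num

/-- probability that the block is pivotal -/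
noncomputable def Pb (n : ℕ) (z : ℤ × ℤ) (t : ℕ) : ℝ :=
  Ex hp (boxE n) (fun F => ind (BPv (Lf n) (Rt n) (blk z t) (↑F : Set Edg)))

/-- probability that the edge is pivotal -/
noncomputable def Pe (n : ℕ) (e : Edg) : ℝ :=
  Ex hp (boxE n) (fun F => ind (Pv (Lf n) (Rt n) e (↑F : Set Edg)))

theorem Pb_nonneg (n : ℕ) (z : ℤ × ℤ) (t : ℕ) : 0 ≤ Pb n z t :=
  Ex_nonneg hpok fun _ _ => ind_nonneg _

theorem Pe_nonneg (n : ℕ) (e : Edg) : 0 ≤ Pe n e :=
  Ex_nonneg hpok fun _ _ => ind_nonneg _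

theorem Pe_eq (n : ℕ) (e : Edg) :
    PQ (1 / 2) (boxE n) (fun F => Pv (Lf n) (Rt n) e ↑F) = Pe n e := rfl

theorem blk_mono {z : ℤ × ℤ} {a b : ℕ} (h : a ≤ b) : blk z a ⊆ blk z b := by
  unfold blk
  apply RE_subset <;> omega

theorem Pb_mono {n : ℕ} {z : ℤ × ℤ} {a b : ℕ} (h : a ≤ b) : Pb n z a ≤ Pb n z b :=
  Ex_mono hpok fun _ _ => ind_mono fun hF => BPv_mono2 (blk_mono h) hF

theorem blk_box {n t : ℕ} {z : ℤ × ℤ} (h1 : |z.1| + t ≤ n) (h2 : |z.2| + t ≤ n) :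
    blk z t ⊆ boxE n := by
  unfold blk boxE
  have i1 := abs_le.1 (le_refl |z.1|)
  have i2 := abs_le.1 (le_refl |z.2|)
  apply RE_subset <;> omega

/-- weights of the sets -/
theorem wt2_eq (n : ℕ) (T : Finset Edg) :
    sp hp (boxE n) (boxE n) (fC (Lf n) (Rt n)) T = wt2 n T := by
  unfold sp wt2
  rw [Finset.sdiff_self, Ex_empty]
  simp only [Finset.empty_union]

theorem wt2_nonneg (n : ℕ) (T : Finset Edg) : 0 ≤ wt2 n T := sq_nonneg _

theorem UU_full (V : Finset Edg) (f : Finset Edg → ℝ) : UU hp V V f = (Ex hp V f) ^ 2 := by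
  unfold UU
  rw [Finset.sdiff_self, Ex_empty]
  simp only [Finset.empty_union]

/-- Jensen. -/
theorem UA_ge (huu : S_UUA) {V W : Finset Edg} (hW : W ⊆ V) (A : Finset Edg → Prop) :
    (Ex hp V (fun F => ind (A F))) ^ 2 ≤ UA hp V W A := by
  unfold UA
  rw [← UU_full]
  exact huu hp hpok V W V _ hW le_rfl

/-- A block outside which everything is resampled. -/
theorem UA_blk {V b : Finset Edg} (I J : Set Vtx) (hb : b ⊆ V) :
    UA hp V (V \ b) (fun F => BPv I J b (↑F : Set Edg)) =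
      (Ex hp V (fun F => ind (BPv I J b (↑F : Set Edg)))) ^ 2 := by
  have key : ∀ G Y : Finset Edg, G ⊆ b →
      ind (BPv I J b (↑(G ∪ Y) : Set Edg)) = ind (BPv I J b (↑Y : Set Edg)) := by
    intro G Y hG
    apply ind_congr
    have e1 : (↑(G ∪ Y) : Set Edg) ∪ ↑b = ↑Y ∪ ↑b := by
      ext x
      simp only [Finset.coe_union, Set.mem_union, Finset.mem_coe]
      have := @hG x
      tauto
    have e2 : (↑(G ∪ Y) : Set Edg) \ ↑b = ↑Y \ ↑b := by
      ext x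
      simp only [Finset.coe_union, Set.mem_sdiff, Set.mem_union, Finset.mem_coe]
      have := @hG x
      tauto
    unfold BPv
    rw [e1, e2]
  have h1 : V \ (V \ b) = b := Finset.sdiff_sdiff_eq_self hb
  unfold UA UU
  rw [h1]
  have h2 : Ex hp V (fun F => ind (BPv I J b (↑F : Set Edg))) =
      Ex hp (V \ b) (fun Y => ind (BPv I J b (↑Y : Set Edg))) := by
    rw [Ex_split (W := V \ b) sdiff_subset, h1]
    rw [Ex_congr (g := fun _ => Ex hp (V \ b) (fun Y => ind (BPv I J b (↑Y : Set Edg))))]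
    · rw [Ex_const]
    · intro G hG
      exact Ex_congr fun Y _ => key G Y hG
  rw [h2, Ex_congr (g := fun _ => (Ex hp (V \ b) (fun Y =>
    ind (BPv I J b (↑Y : Set Edg)))) ^ 2), Ex_const]
  intro G hG
  congr 1
  exact Ex_congr fun Y _ => key G Y hG

/-- Independent layers. -/
theorem P2_zero (V : Finset Edg) (A : Finset Edg → Prop) :
    P2 (fun _ => (0:ℝ)) V A A = (Ex hp V (fun F => ind (A F))) ^ 2 := by
  classical
  have h0 : Ex hp V (fun F => ind (A F)) = (1 / 2 : ℝ) ^ V.card *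
      ∑ F ∈ V.powerset, ind (A F) := by
    unfold Ex
    rw [Finset.mul_sum]
    refine Finset.sum_congr rfl fun F hF => ?_
    have hF' := Finset.mem_powerset.1 hF
    unfold hp
    rw [Finset.prod_const, Finset.prod_const]
    have h1 : (1 - 1 / 2 : ℝ) = 1 / 2 := by norm_num
    rw [h1, ← pow_add, Finset.card_sdiff_of_subset hF']
    have h2 := Finset.card_le_card hF'
    congr 2
    omega
  have h1 : P2 (fun _ => (0:ℝ)) V A A = ∑ F ∈ V.powerset, ∑ F' ∈ V.powerset,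
      (1 / 4 : ℝ) ^ V.card * (ind (A F) * ind (A F')) := by
    unfold P2 E2
    refine Finset.sum_congr rfl fun F _ => Finset.sum_congr rfl fun F' _ => ?_
    congr 1
    rw [← Finset.prod_const]
    refine Finset.prod_congr rfl fun e _ => ?_
    split_ifs <;> norm_num
  rw [h1, h0, mul_pow, sq (∑ F ∈ V.powerset, ind (A F)), Finset.sum_mul_sum, Finset.mul_sum]
  refine Finset.sum_congr rfl fun F _ => ?_
  rw [Finset.mul_sum]
  refine Finset.sum_congr rfl fun F' _ => ?_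
  congr 1
  rw [← pow_mul, mul_comm V.card 2, pow_mul]
  norm_num

/-- The chain bound in one layer. -/
theorem chain1 (hch : S_CHAIN) : ∃ C : ℝ, 0 < C ∧ ∀ (n r : ℕ) (c : ℤ × ℤ), 1 ≤ r → r ≤ n →
    |c.1| ≤ n → |c.2| ≤ n →
    Ex hp (boxE n) (fun F => ind (BPv (Lf n) (Rt n) (blk c r ∩ boxE n) (↑F : Set Edg))) ≤
      C * (qc n c r n) ^ (1 / 2 : ℝ) := by
  obtain ⟨C, K, hC, hK, h⟩ := hch
  refine ⟨C ^ (1 / 2 : ℝ), by positivity, ?_⟩
  intro n r c hr hrn h1 h2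
  obtain ⟨Ch, -, h3, h4⟩ := h n r n c hr hrn le_rfl h1 h2
  have h5 := h4 0 le_rfl one_pos (by
    rw [sub_zero, one_mul]
    exact Real.one_le_rpow (by exact_mod_cast hr) (by norm_num))
  rw [P2_zero] at h5
  have h6 : Ex hp (boxE n) (fun F => ind (BPv (Lf n) (Rt n) (blk c r ∩ boxE n) (↑F : Set Edg))) ≤
      Ex hp (boxE n) (fun F => ind (Ch F)) :=
    Ex_mono hpok fun F hF => ind_mono (h3 F hF)
  have h7 : 0 ≤ Ex hp (boxE n) (fun F => ind (Ch F)) := Ex_nonneg hpok fun _ _ => ind_nonneg _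
  have hq := qc_nonneg n c r n
  calc _ ≤ Ex hp (boxE n) (fun F => ind (Ch F)) := h6
    _ = ((Ex hp (boxE n) (fun F => ind (Ch F))) ^ 2) ^ (1 / 2 : ℝ) := by
        rw [← Real.rpow_natCast, ← Real.rpow_mul h7]
        norm_num
    _ ≤ (C * qc n c r n) ^ (1 / 2 : ℝ) := Real.rpow_le_rpow (sq_nonneg _) h5 (by norm_num)
    _ = _ := by rw [Real.mul_rpow hC.le hq]

/-- A pivotal edge is in a pivotal block. -/
theorem Pv_blk {I J : Set Vtx} {e : Edg} {b : Finset Edg} (he : e ∈ b) {F : Set Edg}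
    (h : Pv I J e F) : BPv I J b F := by
  refine ⟨Cn_mono ?_ h.1, fun h2 => h.2 (Cn_mono ?_ h2)⟩
  · intro x hx
    rcases hx with rfl | hx
    · exact Or.inr (by exact_mod_cast he)
    · exact Or.inl hx
  · intro x hx
    refine ⟨hx.1, ?_⟩
    rintro rfl
    exact hx.2 (by exact_mod_cast he)

theorem rd_one (x : ℤ) : rd 1 x = x := by simp [rd]

/-- The edges near the boundary. -/
theorem near_bd (hch : S_CHAIN) (hsum : S_SUMH) : ∃ C : ℝ, 0 < C ∧ ∀ n β : ℕ, 1 ≤ β → β ≤ n →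
    ∑ e ∈ (boxE n).filter (fun e => b1 n (e.1, e.2.1) ≤ β), Pe n e ≤
      C * (((β:ℝ) / n) ^ (2 / 3 : ℝ) * (n:ℝ) ^ (3 / 4 : ℝ)) := by
  classical
  obtain ⟨C1, hC1, h1⟩ := chain1 hch
  obtain ⟨C2, hC2, h2⟩ := hsum
  refine ⟨2 * C1 * C2, by positivity, ?_⟩
  intro n β hβ hβn
  have hn : 1 ≤ n := hβ.trans hβn
  have h3 : ∑ e ∈ (boxE n).filter (fun e => b1 n (e.1, e.2.1) ≤ β), Pe n e ≤
      ∑ c ∈ (cel 1 n).filter (fun c => b1 n c ≤ β), ∑ b ∈ (Finset.univ : Finset Bool),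
        C1 * (qc n c 1 n) ^ (1 / 2 : ℝ) := by
    rw [← Finset.sum_product']
    have h4 : ∀ e ∈ (boxE n).filter (fun e => b1 n (e.1, e.2.1) ≤ β), Pe n e ≤
        C1 * (qc n (e.1, e.2.1) 1 n) ^ (1 / 2 : ℝ) := by
      intro e he
      rw [Finset.mem_filter] at he
      obtain ⟨m1, m2⟩ := rdE_mem (le_refl 1) he.1
      have e1 : rdE 1 e = (e.1, e.2.1) := by
        unfold rdE
        have a1 := rd_one e.1
        have a2 := rd_one e.2.1
        simp only [Nat.cast_one]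
        rw [a1, a2]
      rw [e1] at m1 m2
      rw [mem_cel] at m2
      refine le_trans ?_ (h1 n 1 (e.1, e.2.1) le_rfl hn m2.1.1 m2.1.2)
      exact Ex_mono hpok fun F _ => ind_mono fun hF => Pv_blk (mem_inter.2 ⟨m1, he.1⟩) hF
    refine (Finset.sum_le_sum h4).trans ?_
    have h5 : ∑ e ∈ (boxE n).filter (fun e => b1 n (e.1, e.2.1) ≤ β),
        C1 * (qc n (e.1, e.2.1) 1 n) ^ (1 / 2 : ℝ) =
        ∑ x ∈ ((boxE n).filter (fun e => b1 n (e.1, e.2.1) ≤ β)).image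
          (fun e : Edg => (((e.1, e.2.1), e.2.2) : (ℤ × ℤ) × Bool)),
          C1 * (qc n x.1 1 n) ^ (1 / 2 : ℝ) := by
      rw [Finset.sum_image]
      rintro ⟨a1, a2, a3⟩ _ ⟨b1, b2, b3⟩ _ h
      simp only [Prod.mk.injEq] at h
      obtain ⟨⟨rfl, rfl⟩, rfl⟩ := h
      rfl
    rw [h5]
    apply Finset.sum_le_sum_of_subset_of_nonneg
    · intro x hx
      rw [Finset.mem_image] at hx
      obtain ⟨e, he, rfl⟩ := hx
      rw [Finset.mem_filter] at he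
      obtain ⟨m1, m2⟩ := rdE_mem (le_refl 1) he.1
      have e1 : rdE 1 e = (e.1, e.2.1) := by
        unfold rdE
        have a1 := rd_one e.1
        have a2 := rd_one e.2.1
        simp only [Nat.cast_one]
        rw [a1, a2]
      rw [e1] at m2
      rw [Finset.mem_product, Finset.mem_filter]
      exact ⟨⟨m2, he.2⟩, Finset.mem_univ _⟩
    · intro x _ _
      have := qc_nonneg n x.1 1 n
      positivity
  refine h3.trans ?_
  have h4 := h2 n 1 β le_rfl hβ hβn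
  have h5 : ∑ c ∈ (cel 1 n).filter (fun c => b1 n c ≤ β), ∑ b ∈ (Finset.univ : Finset Bool),
        C1 * (qc n c 1 n) ^ (1 / 2 : ℝ) =
      2 * C1 * ∑ c ∈ (cel 1 n).filter (fun c => b1 n c ≤ β), (qc n c 1 n) ^ (1 / 2 : ℝ) := by
    rw [Finset.mul_sum]
    refine Finset.sum_congr rfl fun c _ => ?_
    rw [Finset.sum_const, Finset.card_univ, Fintype.card_bool, nsmul_eq_mul]
    push_cast
    ring
  rw [h5]
  calc _ ≤ 2 * C1 * (C2 * (((β:ℝ) / n) ^ (2 / 3 : ℝ) * ((n:ℝ) / ((1:ℕ):ℝ)) ^ (3 / 4 : ℝ))) :=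
        mul_le_mul_of_nonneg_left h4 (by positivity)
    _ = _ := by
        rw [Nat.cast_one, div_one]
        ring

/-- comparison of the inner radii -/
theorem qc_innerL {n : ℕ} {w : ℤ × ℤ} {D L : ℕ} (hL : 1 ≤ L) (hD : 1 ≤ D) (hDn : L * D ≤ n) :
    qc n w (L * D) n ≤ (L:ℝ) ^ (5 / 2 : ℝ) * qc n w D n := by
  have hDL : D ≤ L * D := Nat.le_mul_of_pos_left _ hL
  have hLD : 1 ≤ L * D := hD.trans hDL
  have key : ∀ r : ℕ, 1 ≤ r → r ≤ n → qc n w r n =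
      (r:ℝ) ^ (5 / 2 : ℝ) * (B1 n w r n : ℝ) ^ (-(2 / 3) : ℝ) *
        (B2 n w r n : ℝ) ^ (-(7 / 6) : ℝ) * (n:ℝ) ^ (-(2 / 3) : ℝ) := by
    intro r hr hrn
    have h1 : (0:ℝ) < r := by exact_mod_cast hr
    have h2 : (0:ℝ) < B1 n w r n := by
      have : 1 ≤ B1 n w r n := by unfold B1; omega
      exact_mod_cast this
    have h3 : (0:ℝ) < B2 n w r n := by
      have : 1 ≤ B2 n w r n := by unfold B2; omega
      exact_mod_cast this
    have h4 : (0:ℝ) < n := by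
      have : 1 ≤ n := by omega
      exact_mod_cast this
    unfold qc
    rw [Real.div_rpow h1.le h2.le, Real.div_rpow h2.le h3.le, Real.div_rpow h3.le h4.le]
    have e1 : (B1 n w r n : ℝ) ^ (-(2 / 3) : ℝ) =
        (B1 n w r n : ℝ) ^ (11 / 6 : ℝ) / (B1 n w r n : ℝ) ^ (5 / 2 : ℝ) := by
      rw [← Real.rpow_sub h2]
      norm_num
    have e2 : (B2 n w r n : ℝ) ^ (-(7 / 6) : ℝ) =
        (B2 n w r n : ℝ) ^ (2 / 3 : ℝ) / (B2 n w r n : ℝ) ^ (11 / 6 : ℝ) := by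
      rw [← Real.rpow_sub h3]
      norm_num
    rw [e1, e2, Real.rpow_neg h4.le]
    ring
  have hD0 : (0:ℝ) < D := by exact_mod_cast hD
  have h5 : (0:ℝ) < B1 n w D n := by
    have : 1 ≤ B1 n w D n := by unfold B1; omega
    exact_mod_cast this
  have h6 : (0:ℝ) < B2 n w D n := by
    have : 1 ≤ B2 n w D n := by unfold B2; omega
    exact_mod_cast this
  have h7 : (B1 n w D n : ℝ) ≤ B1 n w (L * D) n := by
    have : B1 n w D n ≤ B1 n w (L * D) n := by unfold B1; omega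
    exact_mod_cast this
  have h8 : (B2 n w D n : ℝ) ≤ B2 n w (L * D) n := by
    have : B2 n w D n ≤ B2 n w (L * D) n := by unfold B2; omega
    exact_mod_cast this
  rw [key (L * D) hLD hDn, key D hD (by omega)]
  have h9 := Real.rpow_le_rpow_of_nonpos h5 h7 (show (-(2 / 3) : ℝ) ≤ 0 by norm_num)
  have h10 := Real.rpow_le_rpow_of_nonpos h6 h8 (show (-(7 / 6) : ℝ) ≤ 0 by norm_num)
  have h11 : ((L * D : ℕ) : ℝ) ^ (5 / 2 : ℝ) = (L:ℝ) ^ (5 / 2 : ℝ) * (D:ℝ) ^ (5 / 2 : ℝ) := by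
    push_cast
    rw [Real.mul_rpow (by positivity) hD0.le]
  rw [h11]
  calc _ ≤ (L:ℝ) ^ (5 / 2 : ℝ) * (D:ℝ) ^ (5 / 2 : ℝ) * (B1 n w D n : ℝ) ^ (-(2 / 3) : ℝ) *
        (B2 n w D n : ℝ) ^ (-(7 / 6) : ℝ) * (n:ℝ) ^ (-(2 / 3) : ℝ) := by gcongr
    _ = _ := by ring

/-- Upper bound for the sum over the cells. -/
theorem cells_up (hch : S_CHAIN) (hsum : S_SUMH) : ∃ C : ℝ, 0 < C ∧ ∀ n g ρ : ℕ, 1 ≤ g →
    ρ + 128 * g ≤ n →
    ∑ z ∈ cel g ρ, Pb n z (128 * g) ≤ C * ((n:ℝ) / g) ^ (3 / 4 : ℝ) := by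
  classical
  obtain ⟨C1, hC1, h1⟩ := chain1 hch
  obtain ⟨C2, hC2, h2⟩ := hsum
  refine ⟨C1 * ((128:ℕ):ℝ) ^ (5 / 4 : ℝ) * C2, by positivity, ?_⟩
  intro n g ρ hg hρ
  have hn : 1 ≤ n := by omega
  have h3 : ∀ z ∈ cel g ρ, Pb n z (128 * g) ≤
      C1 * ((128:ℕ):ℝ) ^ (5 / 4 : ℝ) * (qc n z g n) ^ (1 / 2 : ℝ) := by
    intro z hz
    rw [mem_cel] at hz
    have hb : blk z (128 * g) ∩ boxE n = blk z (128 * g) :=
      Finset.inter_eq_left.2 (blk_box (by omega) (by omega))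
    have h4 := h1 n (128 * g) z (by omega) (by omega) (by omega) (by omega)
    rw [hb] at h4
    have h5 := qc_innerL (n := n) (w := z) (D := g) (L := 128) (by norm_num) hg (by omega)
    have hq := qc_nonneg n z g n
    have hq' := qc_nonneg n z (128 * g) n
    calc Pb n z (128 * g) ≤ C1 * (qc n z (128 * g) n) ^ (1 / 2 : ℝ) := h4
      _ ≤ C1 * (((128:ℕ):ℝ) ^ (5 / 2 : ℝ) * qc n z g n) ^ (1 / 2 : ℝ) := by
          apply mul_le_mul_of_nonneg_left _ hC1.le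
          exact Real.rpow_le_rpow hq' h5 (by norm_num)
      _ = _ := by
          rw [Real.mul_rpow (by positivity) hq, ← Real.rpow_mul (by positivity)]
          norm_num
          ring
  refine (Finset.sum_le_sum h3).trans ?_
  rw [← Finset.mul_sum]
  have h4 := h2 n g n hg (by omega) le_rfl
  have h5 : ∑ z ∈ cel g ρ, (qc n z g n) ^ (1 / 2 : ℝ) ≤
      ∑ z ∈ (cel g n).filter (fun c => b1 n c ≤ n), (qc n z g n) ^ (1 / 2 : ℝ) := by
    apply Finset.sum_le_sum_of_subset_of_nonneg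
    · intro z hz
      rw [mem_cel] at hz
      rw [Finset.mem_filter, mem_cel]
      refine ⟨⟨⟨by omega, by omega⟩, hz.2⟩, ?_⟩
      unfold b1
      have := le_max_left |z.1| |z.2|
      have := abs_nonneg z.1
      omega
    · intro z _ _
      have := qc_nonneg n z g n
      positivity
  have hn0 : (0:ℝ) < n := by exact_mod_cast hn
  rw [div_self hn0.ne', Real.one_rpow, one_mul] at h4
  calc _ ≤ C1 * ((128:ℕ):ℝ) ^ (5 / 4 : ℝ) * (C2 * ((n:ℝ) / g) ^ (3 / 4 : ℝ)) :=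
        mul_le_mul_of_nonneg_left (h5.trans h4) (by positivity)
    _ = _ := by ring

theorem cel_card {g ρ n : ℕ} (hg : 1 ≤ g) (hgn : g ≤ n) (hρ : ρ ≤ n) :
    ((cel g ρ).card : ℝ) ≤ 9 * ((n:ℝ) / g) ^ 2 := by
  have hg0 : (0:ℤ) < g := by omega
  have hsub : cel g ρ ⊆ (Finset.Icc (-((ρ / g : ℕ):ℤ)) ((ρ / g : ℕ):ℤ) ×ˢ
      Finset.Icc (-((ρ / g : ℕ):ℤ)) ((ρ / g : ℕ):ℤ)).image
      (fun z => ((g:ℤ) * z.1, (g:ℤ) * z.2)) := by
    intro c hc
    rw [mem_cel] at hc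
    obtain ⟨⟨h1, h2⟩, ⟨a, ha⟩, ⟨b, hb⟩⟩ := hc
    have key : ∀ a : ℤ, |(g:ℤ) * a| ≤ ρ → -((ρ / g : ℕ):ℤ) ≤ a ∧ a ≤ ((ρ / g : ℕ):ℤ) := by
      intro a h
      have h3 : |a| ≤ ((ρ / g : ℕ):ℤ) := by
        rw [abs_mul, Nat.abs_cast] at h
        have h4 : |a| * g ≤ ρ := by linarith
        rw [show ((ρ / g : ℕ):ℤ) = (ρ:ℤ) / (g:ℤ) from Int.natCast_div ρ g]
        exact (Int.le_ediv_iff_mul_le hg0).2 h4
      exact abs_le.1 h3
    rw [mem_image]
    rw [ha] at h1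
    rw [hb] at h2
    refine ⟨(a, b), ?_, ?_⟩
    · rw [mem_product, mem_Icc, mem_Icc]
      exact ⟨key a h1, key b h2⟩
    · ext
      · simp only; rw [ha]
      · simp only; rw [hb]
  have h1 : (cel g ρ).card ≤ (2 * (ρ / g) + 1) * (2 * (ρ / g) + 1) := by
    refine (card_le_card hsub).trans (card_image_le.trans ?_)
    rw [card_product, Int.card_Icc]
    have : (((ρ / g : ℕ):ℤ) + 1 - -((ρ / g : ℕ):ℤ)).toNat = 2 * (ρ / g) + 1 := by omega
    rw [this]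
  have hgR : (0:ℝ) < g := by exact_mod_cast hg
  have h2 : ((ρ / g : ℕ) : ℝ) ≤ (n:ℝ) / g := by
    refine Nat.cast_div_le.trans ?_
    gcongr
  have h3 : 1 ≤ (n:ℝ) / g := by
    rw [le_div_iff₀ hgR, one_mul]
    exact_mod_cast hgn
  have h4 : ((cel g ρ).card : ℝ) ≤ (2 * ((ρ / g : ℕ):ℝ) + 1) * (2 * ((ρ / g : ℕ):ℝ) + 1) := by
    exact_mod_cast h1
  have h5 : (0:ℝ) ≤ ((ρ / g : ℕ):ℝ) := Nat.cast_nonneg _
  nlinarith

end Pool.Agent.Y433.SN
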