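import Pool.Agent.Y433.SN.LtB
import Pool.Agent.H389R2.NS.QHit
import Pool.Agent.H12R2.Sep.RectDual

/-! Project SN, lower tail: the doubling cells and the sets which hit them. -/

set_option autoImplicit false

namespace Pool.Agent.Y433.SN

open H389NS hiding cel
open H974 H12S H985T Finset Pool.Agent.Y554.DP Pool.Agent.Y554.SN

/-- planar duality in the square -/
theorem dom_sq {n t : ℕ} {z : ℤ × ℤ} (h1 : |z.1| + t + 1 ≤ n) (h2 : |z.2| + t + 1 ≤ n) :
    DomB hp (boxE n) (Lf n) (Rt n) {v | v.2 = -(n:ℤ) - 1} {v | v.2 = n} z t where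
  ok := hpok
  sub := blk_box (by omega) (by omega)
  fair := fun e _ => rfl
  dom := by
    have i1 := abs_nonneg z.1
    exact rect_dual (by omega) (by omega)
  far := by
    have i1 := abs_le.1 (le_refl |z.1|)
    rintro v (⟨g1, -⟩ | ⟨g1, -⟩)
    · left
      rw [g1, le_abs]
      right; omega
    · left
      rw [g1, le_abs]
      left; omega
  far' := by
    have i2 := abs_le.1 (le_refl |z.2|)
    rintro v (g1 | g1)
    · right
      rw [Set.mem_ofPred_eq] at g1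
      rw [g1, le_abs]
      right; push_cast; omega
    · right
      rw [Set.mem_ofPred_eq] at g1
      rw [g1, le_abs]
      left; push_cast; omega

theorem UA_empty (V : Finset Edg) (A : Finset Edg → Prop) :
    UA hp V ∅ A = Ex hp V (fun F => ind (A F)) := by
  unfold UA UU
  rw [Finset.sdiff_empty]
  refine Ex_congr fun F _ => ?_
  rw [Ex_empty, Finset.union_empty, sq, ind_sq]

/-- Lower bound for the sum over the cells. -/
theorem cells_low (hch : S_CHAIN) (hinf : S_INF) (hsum : S_SUMH) : ∃ ε c : ℝ, 0 < ε ∧ ε ≤ 1 ∧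
    0 < c ∧ ∀ n g : ℕ, 1 ≤ g → ((128 * g + 1 : ℕ) : ℝ) ≤ ε * n →
      c * ((n:ℝ) / g) ^ (3 / 4 : ℝ) ≤ ∑ z ∈ cel g (n - (128 * g + 1)), Pb n z (8 * g - 1) := by
  classical
  obtain ⟨C, hC, hbd⟩ := near_bd hch hsum
  obtain ⟨ci, hci, hinf⟩ := hinf
  obtain ⟨C1, hC1, hone⟩ := q_one
  set ε : ℝ := min 1 ((ci / (2 * C)) ^ (3 / 2 : ℝ)) with hε
  have hε0 : 0 < ε := lt_min one_pos (by positivity)
  have hε23 : C * ε ^ (2 / 3 : ℝ) ≤ ci / 2 := by
    have h1 : ε ^ (2 / 3 : ℝ) ≤ ((ci / (2 * C)) ^ (3 / 2 : ℝ)) ^ (2 / 3 : ℝ) :=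
      Real.rpow_le_rpow hε0.le (min_le_right _ _) (by norm_num)
    rw [← Real.rpow_mul (by positivity)] at h1
    norm_num at h1
    calc C * ε ^ (2 / 3 : ℝ) ≤ C * (ci / (2 * C)) := mul_le_mul_of_nonneg_left h1 hC.le
      _ = ci / 2 := by field_simp
  refine ⟨ε, ci / (2 * C1), hε0, min_le_left _ _, by positivity, ?_⟩
  intro n g hg hβ
  obtain ⟨β, hβe⟩ : ∃ β, β = 128 * g + 1 := ⟨_, rfl⟩
  rw [← hβe] at hβ ⊢
  have hβn : β ≤ n := by
    have : (β:ℝ) ≤ n := hβ.trans (by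
      have : ε ≤ 1 := min_le_left _ _
      have h0 : (0:ℝ) ≤ n := Nat.cast_nonneg _
      nlinarith)
    exact_mod_cast this
  have hn1 : 1 ≤ n := by omega
  have hn0 : (0:ℝ) < n := by exact_mod_cast hn1
  have hg0 : (0:ℝ) < g := by exact_mod_cast hg
  have h1 := hbd n β (by omega) hβn
  have h2 : C * (((β:ℝ) / n) ^ (2 / 3 : ℝ) * (n:ℝ) ^ (3 / 4 : ℝ)) ≤
      ci / 2 * (n:ℝ) ^ (3 / 4 : ℝ) := by
    have h3 : (β:ℝ) / n ≤ ε := by rw [div_le_iff₀ hn0]; exact hβ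
    have h4 : ((β:ℝ) / n) ^ (2 / 3 : ℝ) ≤ ε ^ (2 / 3 : ℝ) :=
      Real.rpow_le_rpow (by positivity) h3 (by norm_num)
    calc _ = (C * ((β:ℝ) / n) ^ (2 / 3 : ℝ)) * (n:ℝ) ^ (3 / 4 : ℝ) := by ring
      _ ≤ (C * ε ^ (2 / 3 : ℝ)) * (n:ℝ) ^ (3 / 4 : ℝ) := by gcongr
      _ ≤ _ := mul_le_mul_of_nonneg_right hε23 (by positivity)
  have h3 := hinf n hn1
  simp only [Pe_eq] at h3
  have h4 := Finset.sum_filter_add_sum_filter_not (boxE n) (fun e => b1 n (e.1, e.2.1) ≤ β) (Pe n)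
  have h5 : ci / 2 * (n:ℝ) ^ (3 / 4 : ℝ) ≤
      ∑ e ∈ (boxE n).filter (fun e => ¬ b1 n (e.1, e.2.1) ≤ β), Pe n e := by linarith
  -- the cells
  have h6 : ∑ e ∈ (boxE n).filter (fun e => ¬ b1 n (e.1, e.2.1) ≤ β), Pe n e ≤
      ∑ z ∈ cel g (n - β), ∑ e ∈ blk z g, Pe n e := by
    have h7 : ∀ e ∈ (boxE n).filter (fun e => ¬ b1 n (e.1, e.2.1) ≤ β), Pe n e ≤
        ∑ z ∈ cel g (n - β), if e ∈ blk z g then Pe n e else 0 := by
      intro e he
      rw [Finset.mem_filter] at he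
      obtain ⟨m1, m2⟩ := rdE_mem hg he.1
      have hg' : (0:ℤ) < g := by omega
      have h8 : rdE g e ∈ cel g (n - β) := by
        rw [mem_cel] at m2 ⊢
        refine ⟨?_, m2.2⟩
        have hb := he.2
        unfold b1 at hb
        simp only at hb
        have a1 := le_max_left |e.1| |e.2.1|
        have a2 := le_max_right |e.1| |e.2.1|
        have a3 := (rd_near (x := e.1) hg').2
        have a4 := (rd_near (x := e.2.1) hg').2
        have a5 : |(rdE g e).1| ≤ |e.1| := a3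
        have a6 : |(rdE g e).2| ≤ |e.2.1| := a4
        constructor <;> omega
      have h9 := Finset.single_le_sum (f := fun z => if e ∈ blk z g then Pe n e else 0)
        (fun z _ => by
          split_ifs
          · exact Pe_nonneg _ _
          · exact le_rfl) h8
      rw [if_pos m1] at h9
      exact h9
    refine (Finset.sum_le_sum h7).trans ?_
    rw [Finset.sum_comm]
    refine Finset.sum_le_sum fun z _ => ?_
    rw [← Finset.sum_filter]
    apply Finset.sum_le_sum_of_subset_of_nonneg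
    · intro e he
      exact (Finset.mem_filter.1 he).2
    · intro e _ _
      exact Pe_nonneg _ _
  have h7 : ∀ z ∈ cel g (n - β), ∑ e ∈ blk z g, Pe n e ≤
      C1 * (g:ℝ) ^ (3 / 4 : ℝ) * Pb n z (8 * g - 1) := by
    intro z hz
    rw [mem_cel] at hz
    have hD := dom_sq (n := n) (t := 4 * g) (z := z) (by push_cast; omega) (by push_cast; omega)
    have h8 := hone g hg hp (boxE n) _ _ _ _ z hD ∅ (Finset.empty_subset _)
      (Finset.disjoint_empty_left _)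
    simp only [UA_empty] at h8
    refine h8.trans ?_
    apply mul_le_mul_of_nonneg_left _ (by positivity)
    exact Pb_mono (by omega)
  have h8 : ci / 2 * (n:ℝ) ^ (3 / 4 : ℝ) ≤
      C1 * (g:ℝ) ^ (3 / 4 : ℝ) * ∑ z ∈ cel g (n - β), Pb n z (8 * g - 1) := by
    rw [Finset.mul_sum]
    exact h5.trans (h6.trans (Finset.sum_le_sum h7))
  have hgp : 0 < (g:ℝ) ^ (3 / 4 : ℝ) := by positivity
  rw [Real.div_rpow hn0.le hg0.le]
  have h9 : ci / (2 * C1) * ((n:ℝ) ^ (3 / 4 : ℝ) / (g:ℝ) ^ (3 / 4 : ℝ)) =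
      (ci / 2 * (n:ℝ) ^ (3 / 4 : ℝ)) / (C1 * (g:ℝ) ^ (3 / 4 : ℝ)) := by
    field_simp
  rw [h9, div_le_iff₀ (by positivity)]
  linarith

/-- The doubling cells. -/
theorem cells_dbl (hch : S_CHAIN) (hinf : S_INF) (hsum : S_SUMH) : ∃ K ε c : ℝ, 1 ≤ K ∧ 0 < ε ∧
    0 < c ∧ ∀ n g : ℕ, 1 ≤ g → ((128 * g + 1 : ℕ) : ℝ) ≤ ε * n → 128 * g + 1 ≤ n ∧
      ∀ [DecidablePred (fun z : ℤ × ℤ => Pb n z (128 * g) ≤ K * Pb n z (8 * g - 1))],
      c * ((g:ℝ) / n) ^ (1 / 2 : ℝ) ≤ ∑ z ∈ (cel g (n - (128 * g + 1))).filter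
        (fun z => Pb n z (128 * g) ≤ K * Pb n z (8 * g - 1)), Pb n z (8 * g - 1) ^ 2 := by
  obtain ⟨ε, c, hε, hε1, hc, hlow⟩ := cells_low hch hinf hsum
  obtain ⟨C, hC, hup⟩ := cells_up hch hsum
  refine ⟨max 1 (2 * C / c), ε, c ^ 2 / 36, le_max_left _ _, hε, by positivity, ?_⟩
  intro n g hg hβ
  have hβn : 128 * g + 1 ≤ n := by
    have : ((128 * g + 1 : ℕ):ℝ) ≤ n := hβ.trans (by
      have h0 : (0:ℝ) ≤ n := Nat.cast_nonneg _
      nlinarith)
    exact_mod_cast this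
  refine ⟨hβn, ?_⟩
  intro inst
  have hn0 : (0:ℝ) < n := by
    have : 1 ≤ n := by omega
    exact_mod_cast this
  have hg0 : (0:ℝ) < g := by exact_mod_cast hg
  have hK : 0 < max 1 (2 * C / c) := lt_max_of_lt_left one_pos
  have h1 := doubling (cel g (n - (128 * g + 1))) (fun z => Pb n z (8 * g - 1))
    (fun z => Pb n z (128 * g)) c C (((n:ℝ) / g) ^ (3 / 4 : ℝ)) (max 1 (2 * C / c))
    (9 * ((n:ℝ) / g) ^ 2) (fun z _ => Pb_nonneg _ _ _) (by positivity) hc hK (by positivity)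
    (cel_card hg (by omega) (by omega)) (hlow n g hg hβ) (hup n g _ hg (by omega)) (by
      have := le_max_right 1 (2 * C / c)
      have h2 : 2 * C / c * (c / 2) = C := by field_simp
      calc C = 2 * C / c * (c / 2) := h2.symm
        _ ≤ _ := mul_le_mul_of_nonneg_right this (by positivity))
    (fun z _ => Pb_nonneg _ _ _)
  refine le_trans (le_of_eq ?_) h1
  have h2 : (((n:ℝ) / g) ^ (3 / 4 : ℝ)) ^ 2 = ((n:ℝ) / g) ^ 2 * ((g:ℝ) / n) ^ (1 / 2 : ℝ) := by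
    have h3 : (g:ℝ) / n = ((n:ℝ) / g)⁻¹ := by rw [inv_div]
    have h4 : 0 < (n:ℝ) / g := by positivity
    rw [h3, Real.inv_rpow h4.le, ← Real.rpow_neg h4.le, ← Real.rpow_natCast, ← Real.rpow_natCast,
      ← Real.rpow_mul h4.le, ← Real.rpow_add h4]
    congr 1
    norm_num
  have h5 : (c * ((n:ℝ) / g) ^ (3 / 4 : ℝ) / 2) ^ 2 =
      c ^ 2 / 4 * (((n:ℝ) / g) ^ (3 / 4 : ℝ)) ^ 2 := by ring
  rw [h5, h2]
  have h6 : ((n:ℝ) / g) ^ 2 ≠ 0 := by positivity
  field_simp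
  ring

/-- A doubling block is hit by a small set of edges. -/
theorem hit_small (huu : S_UUA) (K : ℝ) (hK : 1 ≤ K) : ∃ (A r0 : ℕ) (c C : ℝ), 1 ≤ A ∧ 1 ≤ r0 ∧
    0 < c ∧ 0 < C ∧ ∀ r : ℕ, r0 ≤ r → ∀ (n m : ℕ) (z : ℤ × ℤ), |z.1| + 16 * (A * r : ℕ) + 1 ≤ n →
      |z.2| + 16 * (A * r : ℕ) + 1 ≤ n → Pb n z (16 * (A * r)) ≤ K * Pb n z (A * r - 1) →
      1 ≤ m → C * ((A * r : ℕ) : ℝ) ^ (3 / 4 : ℝ) ≤ m →
      c * Pb n z (A * r - 1) ^ 2 ≤ ∑ T ∈ (blk z (4 * (A * r))).powerset.filter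
        (fun T => T ≠ ∅ ∧ T.card ≤ m), wt2 n T := by
  classical
  obtain ⟨A, r0, c2, c3, hA, hr0, hc2, hc3, hit⟩ := q_hit (K ^ 2) (one_le_pow₀ hK)
  obtain ⟨C1, hC1, hone⟩ := q_one
  refine ⟨A, r0, c3 / 2, 2 * (C1 * K ^ 2) / c3, hA, hr0, by positivity, by positivity, ?_⟩
  intro r hr n m z hz1 hz2 hdb hm hmC
  have hs1 : 1 ≤ A * r := Nat.mul_pos hA (by omega)
  have hit' := hit r hr hp (boxE n) (Lf n) (Rt n) {v | v.2 = -(n:ℤ) - 1} {v | v.2 = n} z
    (dom_sq (by push_cast at *; omega) (by push_cast at *; omega)) (boxE n)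
    (boxE n \ blk z (4 * (A * r))) le_rfl (fun _ _ => rfl)
    (blk_box (by push_cast at *; omega) (by push_cast at *; omega)) sdiff_subset
    Finset.sdiff_disjoint
  generalize hs : A * r = s at *
  have hB4 : blk z (4 * s) ⊆ boxE n :=
    blk_box (by push_cast at *; omega) (by push_cast at *; omega)
  have hB16 : blk z (16 * s) ⊆ boxE n :=
    blk_box (by push_cast at *; omega) (by push_cast at *; omega)
  have p0 := Pb_nonneg n z (s - 1)
  have p4 := Pb_nonneg n z (4 * s)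
  have p16 := Pb_nonneg n z (16 * s)
  have p1 : Pb n z (s - 1) ≤ Pb n z (4 * s) := Pb_mono (by omega)
  have p2 : Pb n z (4 * s) ≤ Pb n z (16 * s) := Pb_mono (by omega)
  have u4 : UA hp (boxE n) (boxE n \ blk z (4 * s))
      (fun F => BPv (Lf n) (Rt n) (blk z (4 * s)) (↑F : Set Edg)) = Pb n z (4 * s) ^ 2 :=
    UA_blk _ _ hB4
  have u16 : UA hp (boxE n) (boxE n \ blk z (16 * s))
      (fun F => BPv (Lf n) (Rt n) (blk z (16 * s)) (↑F : Set Edg)) = Pb n z (16 * s) ^ 2 :=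
    UA_blk _ _ hB16
  have u0 : Pb n z (s - 1) ^ 2 ≤ UA hp (boxE n) (boxE n \ blk z (4 * s))
      (fun F => BPv (Lf n) (Rt n) (blk z (s - 1)) (↑F : Set Edg)) := UA_ge huu sdiff_subset _
  have hK2 : Pb n z (16 * s) ^ 2 ≤ K ^ 2 * Pb n z (s - 1) ^ 2 := by
    rw [← mul_pow]
    exact pow_le_pow_left₀ p16 hdb 2
  have hit2 := hit' (by
    rw [u4]
    calc Pb n z (4 * s) ^ 2 ≤ Pb n z (16 * s) ^ 2 := pow_le_pow_left₀ p4 p2 2
      _ ≤ K ^ 2 * Pb n z (s - 1) ^ 2 := hK2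
      _ ≤ _ := mul_le_mul_of_nonneg_left u0 (by positivity))
  rw [u4, Finset.sdiff_sdiff_eq_self hB4] at hit2
  simp only [wt2_eq] at hit2
  -- the first moment
  have hfm : ∑ T ∈ (blk z (4 * s)).powerset, wt2 n T * (T.card : ℝ) ≤
      C1 * K ^ 2 * (s:ℝ) ^ (3 / 4 : ℝ) * Pb n z (s - 1) ^ 2 := by
    rw [sum_card]
    have h1 : ∀ e ∈ blk z (4 * s), ∑ T ∈ (blk z (4 * s)).powerset.filter (fun T => e ∈ T),
        wt2 n T ≤ (1 / 4) * UA hp (boxE n) (boxE n \ blk z (16 * s))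
          (fun F => Pv (Lf n) (Rt n) e ↑F) := by
      intro e he
      have h2 := sum_sp_mem (p := hp) (S := boxE n) (V := boxE n) (W := boxE n \ blk z (4 * s))
        le_rfl (fun _ _ => rfl) sdiff_subset (fC (Lf n) (Rt n)) (e := e) (by
          rw [Finset.sdiff_sdiff_eq_self hB4]; exact he)
      rw [Finset.sdiff_sdiff_eq_self hB4, QH.UU_dif] at h2
      simp only [wt2_eq] at h2
      rw [h2]
      apply mul_le_mul_of_nonneg_left _ (by norm_num)
      unfold UA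
      exact huu hp hpok _ _ _ _ (Finset.sdiff_subset_sdiff le_rfl (blk_mono (by omega)))
        sdiff_subset
    refine (Finset.sum_le_sum h1).trans ?_
    rw [← Finset.mul_sum]
    have h3 := hone (4 * s) (by omega) hp (boxE n) (Lf n) (Rt n) _ _ z
      (dom_sq (n := n) (t := 4 * (4 * s)) (by push_cast at *; omega) (by push_cast at *; omega))
      (boxE n \ blk z (16 * s)) sdiff_subset (by
        have : 4 * (4 * s) = 16 * s := by ring
        rw [this]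
        exact Finset.sdiff_disjoint)
    have h16 : 4 * (4 * s) = 16 * s := by ring
    rw [h16, u16] at h3
    have hs0 : (0:ℝ) ≤ s := Nat.cast_nonneg _
    have h4 : ((4 * s : ℕ) : ℝ) ^ (3 / 4 : ℝ) ≤ 4 * (s:ℝ) ^ (3 / 4 : ℝ) := by
      push_cast
      rw [Real.mul_rpow (by norm_num) hs0]
      apply mul_le_mul_of_nonneg_right _ (by positivity)
      calc (4:ℝ) ^ (3 / 4 : ℝ) ≤ (4:ℝ) ^ (1 : ℝ) :=
            Real.rpow_le_rpow_of_exponent_le (by norm_num) (by norm_num)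
        _ = 4 := Real.rpow_one _
    calc (1 / 4) * ∑ e ∈ blk z (4 * s), UA hp (boxE n) (boxE n \ blk z (16 * s))
          (fun F => Pv (Lf n) (Rt n) e ↑F)
        ≤ (1 / 4) * (C1 * ((4 * s : ℕ) : ℝ) ^ (3 / 4 : ℝ) * Pb n z (16 * s) ^ 2) :=
          mul_le_mul_of_nonneg_left h3 (by norm_num)
      _ ≤ (1 / 4) * (C1 * (4 * (s:ℝ) ^ (3 / 4 : ℝ)) * (K ^ 2 * Pb n z (s - 1) ^ 2)) := by
          gcongr
      _ = _ := by ring
  have hmk := markov (blk z (4 * s)).powerset (wt2 n) (fun T => T.card) m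
    (fun T => c2 * ((s : ℕ) : ℝ) ^ (3/4 : ℝ) ≤ ((T ∩ blk z s).card : ℝ))
    (c3 * Pb n z (s - 1) ^ 2) (C1 * K ^ 2 * (s:ℝ) ^ (3 / 4 : ℝ) * Pb n z (s - 1) ^ 2)
    (fun T _ => wt2_nonneg n T) hm (by
      refine le_trans ?_ hit2
      exact mul_le_mul_of_nonneg_left (pow_le_pow_left₀ p0 p1 2) hc3.le) hfm (by
      have h5 : C1 * K ^ 2 * (s:ℝ) ^ (3 / 4 : ℝ) ≤ m * (c3 / 2) := by
        have : 2 * (C1 * K ^ 2) / c3 * (s:ℝ) ^ (3 / 4 : ℝ) * (c3 / 2) ≤ m * (c3 / 2) :=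
          mul_le_mul_of_nonneg_right hmC (by positivity)
        calc C1 * K ^ 2 * (s:ℝ) ^ (3 / 4 : ℝ) =
            2 * (C1 * K ^ 2) / c3 * (s:ℝ) ^ (3 / 4 : ℝ) * (c3 / 2) := by field_simp
          _ ≤ _ := this
      calc _ ≤ m * (c3 / 2) * Pb n z (s - 1) ^ 2 :=
            mul_le_mul_of_nonneg_right h5 (sq_nonneg _)
        _ = _ := by ring)
  have hfin : ∑ T ∈ (blk z (4 * s)).powerset.filter (fun T =>
      c2 * ((s : ℕ) : ℝ) ^ (3/4 : ℝ) ≤ ((T ∩ blk z s).card : ℝ) ∧ T.card ≤ m), wt2 n T ≤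
      ∑ T ∈ (blk z (4 * s)).powerset.filter (fun T => T ≠ ∅ ∧ T.card ≤ m), wt2 n T := by
    apply Finset.sum_le_sum_of_subset_of_nonneg
    · intro T hT
      rw [Finset.mem_filter] at hT ⊢
      refine ⟨hT.1, ?_, hT.2.2⟩
      rintro rfl
      have h6 := hT.2.1
      rw [Finset.empty_inter, Finset.card_empty, Nat.cast_zero] at h6
      have hs0 : (0:ℝ) < s := by exact_mod_cast hs1
      have : 0 < c2 * (s:ℝ) ^ (3/4 : ℝ) := by positivity
      linarith
    · intro T _ _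
      exact wt2_nonneg n T
  refine le_trans (le_of_eq ?_) (hmk.trans hfin)
  ring

/-- The cells whose block contains a given edge. -/
theorem few_cells (g ρ : ℕ) (hg : 1 ≤ g) (e : Edg) :
    ((cel g ρ).filter (fun z => e ∈ blk z (32 * g))).card ≤ 4225 := by
  classical
  have hg0 : (0:ℤ) < g := by omega
  have hsub : (cel g ρ).filter (fun z => e ∈ blk z (32 * g)) ⊆
      (Finset.Icc (e.1 / g - 32) (e.1 / g + 32) ×ˢ
      Finset.Icc (e.2.1 / g - 32) (e.2.1 / g + 32)).image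
      (fun z => ((g:ℤ) * z.1, (g:ℤ) * z.2)) := by
    intro c hc
    rw [Finset.mem_filter, mem_cel] at hc
    obtain ⟨⟨-, ⟨a, ha⟩, ⟨b, hb⟩⟩, hbk⟩ := hc
    have h1 := blk_bd hbk
    have key : ∀ a x : ℤ, (g:ℤ) * a - (32 * g : ℕ) ≤ x → x ≤ (g:ℤ) * a + (32 * g : ℕ) →
        x / g - 32 ≤ a ∧ a ≤ x / g + 32 := by
      intro a x h2 h3
      push_cast at h2 h3
      constructor
      · have : x / g ≤ a + 32 := by
          have h4 : x ≤ (a + 32) * g := by linarith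
          calc x / g ≤ ((a + 32) * g) / g := Int.ediv_le_ediv hg0 h4
            _ = a + 32 := Int.mul_ediv_cancel _ hg0.ne'
        linarith
      · have : a - 32 ≤ x / g := by
          rw [Int.le_ediv_iff_mul_le hg0]
          linarith
        linarith
    rw [mem_image]
    rw [ha, hb] at h1
    refine ⟨(a, b), ?_, ?_⟩
    · rw [mem_product, mem_Icc, mem_Icc]
      exact ⟨key a _ h1.1 h1.2.1, key b _ h1.2.2.1 h1.2.2.2⟩
    · ext
      · simp only; rw [ha]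
      · simp only; rw [hb]
  refine (card_le_card hsub).trans (card_image_le.trans ?_)
  rw [card_product, Int.card_Icc, Int.card_Icc]
  have e1 : (e.1 / (g:ℤ) + 32 + 1 - (e.1 / g - 32)).toNat = 65 := by omega
  have e2 : (e.2.1 / (g:ℤ) + 32 + 1 - (e.2.1 / g - 32)).toNat = 65 := by omega
  rw [e1, e2]

/-- Sets with one element. -/
theorem single_ge (huu : S_UUA) {n : ℕ} {e : Edg} (he : e ∈ boxE n) :
    (1 / 4) * Pe n e ^ 2 ≤ wt2 n {e} := by
  classical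
  have hsub : ({e} : Finset Edg) ⊆ boxE n := Finset.singleton_subset_iff.2 he
  have h2 := sum_sp_mem (p := hp) (S := boxE n) (V := boxE n) (W := boxE n \ {e})
    le_rfl (fun _ _ => rfl) sdiff_subset (fC (Lf n) (Rt n)) (e := e) (by
      rw [Finset.sdiff_sdiff_eq_self hsub]; exact Finset.mem_singleton_self e)
  rw [Finset.sdiff_sdiff_eq_self hsub, QH.UU_dif] at h2
  have h3 : ({e} : Finset Edg).powerset.filter (fun T => e ∈ T) = {{e}} := by
    ext T
    simp only [Finset.mem_filter, Finset.mem_powerset, Finset.subset_singleton_iff,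
      Finset.mem_singleton]
    constructor
    · rintro ⟨h | h, h'⟩
      · rw [h] at h'
        exact absurd h' (Finset.notMem_empty _)
      · exact h
    · rintro rfl
      exact ⟨Or.inr rfl, Finset.mem_singleton_self e⟩
  rw [h3, Finset.sum_singleton, wt2_eq] at h2
  rw [h2]
  exact mul_le_mul_of_nonneg_left (UA_ge huu sdiff_subset _) (by norm_num)

theorem box_card {n : ℕ} (hn : 1 ≤ n) : ((boxE n).card : ℝ) ≤ 18 * (n:ℝ) ^ 2 := by
  have h : boxE n = blk (0, 0) n := by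
    unfold boxE blk
    congr 1 <;> ring
  rw [h]
  exact qf_card hn

open Classical in
/-- **LT**: lower bound for the lower tail of the size of the spectral sample. -/
theorem lt (hch : S_CHAIN) (hinf : S_INF) (hsum : S_SUMH) (huu : S_UUA) : S_LT := by
  obtain ⟨K, ε, c1, hK, hε, hc1, hdbl⟩ := cells_dbl hch hinf hsum
  obtain ⟨A, r0, c2, C2, hA, hr0, hc2, hC2, hit⟩ := hit_small huu K hK
  obtain ⟨M0, c3, hM0, hc3, hsc⟩ := scale A r0 C2 ε hA hC2 hε
  obtain ⟨ci, hci, hinf⟩ := hinf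
  set ca : ℝ := ci ^ 2 / (72 * (M0:ℝ) ^ (2 / 3 : ℝ)) with hca
  set cb : ℝ := c2 * c1 * c3 ^ (1 / 2 : ℝ) / 4225 with hcb
  have hM0' : (0:ℝ) < M0 := by exact_mod_cast hM0
  have hca0 : 0 < ca := by positivity
  have hcb0 : 0 < cb := by positivity
  refine ⟨min ca cb, lt_min hca0 hcb0, ?_⟩
  intro n m hn hm hmn
  have hn0 : (0:ℝ) < n := by exact_mod_cast hn
  have hm0 : (0:ℝ) < m := by exact_mod_cast hm
  have hX : 0 ≤ (m:ℝ) ^ (2 / 3 : ℝ) * (n:ℝ) ^ (-(1 / 2) : ℝ) := by positivity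
  by_cases hmM : M0 ≤ m
  · -- the doubling cells
    refine (mul_le_mul_of_nonneg_right (min_le_right ca cb) hX).trans ?_
    obtain ⟨r, hr1, hrr0, h1, h2, h3⟩ := hsc m n hmM hmn
    have hg : 1 ≤ A * r := Nat.mul_pos hA hr1
    obtain ⟨hβn, h4⟩ := hdbl n (A * r) hg h2
    have h4 := h4
    have hAr : A * (8 * r) = 8 * (A * r) := by ring
    have h5 : ∀ z ∈ (cel (A * r) (n - (128 * (A * r) + 1))).filter
        (fun z => Pb n z (128 * (A * r)) ≤ K * Pb n z (8 * (A * r) - 1)),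
        c2 * Pb n z (8 * (A * r) - 1) ^ 2 ≤ ∑ T ∈ (boxE n).powerset.filter
          (fun T => T ⊆ blk z (32 * (A * r)) ∧ T ≠ ∅ ∧ T.card ≤ m), wt2 n T := by
      intro z hz
      rw [Finset.mem_filter, mem_cel] at hz
      have h6 := hit (8 * r) (by omega) n m z (by rw [hAr]; push_cast; omega)
        (by rw [hAr]; push_cast; omega) (by
          rw [hAr]
          have : 16 * (8 * (A * r)) = 128 * (A * r) := by ring
          rw [this]
          exact hz.2) hm (by rw [hAr]; exact h1)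
      rw [hAr] at h6
      refine h6.trans ?_
      apply Finset.sum_le_sum_of_subset_of_nonneg
      · intro T hT
        rw [Finset.mem_filter, Finset.mem_powerset] at hT ⊢
        have h32 : 4 * (8 * (A * r)) = 32 * (A * r) := by ring
        rw [h32] at hT
        refine ⟨hT.1.trans (blk_box (by push_cast; omega) (by push_cast; omega)), hT.1, hT.2⟩
      · intro T _ _
        exact wt2_nonneg n T
    have h6 := overlap ((cel (A * r) (n - (128 * (A * r) + 1))).filter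
        (fun z => Pb n z (128 * (A * r)) ≤ K * Pb n z (8 * (A * r) - 1))) (boxE n).powerset
        (wt2 n) (fun T => T ≠ ∅ ∧ T.card ≤ m)
        (fun z T => T ⊆ blk z (32 * (A * r)) ∧ T ≠ ∅ ∧ T.card ≤ m) 4225
        (fun T _ => wt2_nonneg n T) (fun z _ T _ h => h.2) (by
        intro T _ hT
        obtain ⟨e, he⟩ := Finset.nonempty_iff_ne_empty.2 hT.1
        refine le_trans (Finset.card_le_card ?_) (few_cells (A * r)
          (n - (128 * (A * r) + 1)) hg e)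
        intro z hz
        rw [Finset.mem_filter] at hz ⊢
        exact ⟨(Finset.mem_filter.1 hz.1).1, hz.2.1 he⟩)
    have h7 : c2 * (c1 * (((A * r : ℕ):ℝ) / n) ^ (1 / 2 : ℝ)) ≤
        4225 * ∑ T ∈ (boxE n).powerset.filter (fun T => T ≠ ∅ ∧ T.card ≤ m), wt2 n T := by
      calc c2 * (c1 * (((A * r : ℕ):ℝ) / n) ^ (1 / 2 : ℝ)) ≤
          c2 * ∑ z ∈ (cel (A * r) (n - (128 * (A * r) + 1))).filter
            (fun z => Pb n z (128 * (A * r)) ≤ K * Pb n z (8 * (A * r) - 1)),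
            Pb n z (8 * (A * r) - 1) ^ 2 := mul_le_mul_of_nonneg_left h4 hc2.le
        _ = ∑ z ∈ (cel (A * r) (n - (128 * (A * r) + 1))).filter
            (fun z => Pb n z (128 * (A * r)) ≤ K * Pb n z (8 * (A * r) - 1)),
            c2 * Pb n z (8 * (A * r) - 1) ^ 2 := Finset.mul_sum _ _ _
        _ ≤ _ := Finset.sum_le_sum h5
        _ ≤ _ := by
          refine h6.trans (le_of_eq ?_)
          norm_num
    have h8 : c3 ^ (1 / 2 : ℝ) * ((m:ℝ) ^ (2 / 3 : ℝ) * (n:ℝ) ^ (-(1 / 2) : ℝ)) ≤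
        (((A * r : ℕ):ℝ) / n) ^ (1 / 2 : ℝ) := by
      rw [Real.div_rpow (Nat.cast_nonneg _) hn0.le, Real.rpow_neg hn0.le]
      have h9 : (c3 * (m:ℝ) ^ (4 / 3 : ℝ)) ^ (1 / 2 : ℝ) ≤ ((A * r : ℕ):ℝ) ^ (1 / 2 : ℝ) :=
        Real.rpow_le_rpow (by positivity) h3 (by norm_num)
      rw [Real.mul_rpow hc3.le (by positivity), ← Real.rpow_mul hm0.le] at h9
      norm_num at h9
      rw [div_eq_mul_inv, ← mul_assoc]
      apply mul_le_mul_of_nonneg_right _ (by positivity)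
      norm_num
      exact h9
    have h10 : c2 * c1 * (c3 ^ (1 / 2 : ℝ) * ((m:ℝ) ^ (2 / 3 : ℝ) * (n:ℝ) ^ (-(1 / 2) : ℝ))) ≤
        4225 * ∑ T ∈ (boxE n).powerset.filter (fun T => T ≠ ∅ ∧ T.card ≤ m), wt2 n T := by
      refine le_trans ?_ h7
      rw [← mul_assoc c2 c1]
      exact mul_le_mul_of_nonneg_left h8 (by positivity)
    rw [hcb]
    have h11 : c2 * c1 * c3 ^ (1 / 2 : ℝ) / 4225 *
        ((m:ℝ) ^ (2 / 3 : ℝ) * (n:ℝ) ^ (-(1 / 2) : ℝ)) =
        (c2 * c1 * (c3 ^ (1 / 2 : ℝ) * ((m:ℝ) ^ (2 / 3 : ℝ) * (n:ℝ) ^ (-(1 / 2) : ℝ)))) / 4225 := by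
      ring
    rw [h11, div_le_iff₀ (by norm_num)]
    linarith
  · -- single edges
    refine (mul_le_mul_of_nonneg_right (min_le_left ca cb) hX).trans ?_
    push Not at hmM
    have h1 : ∑ e ∈ boxE n, (1 / 4) * Pe n e ^ 2 ≤
        ∑ T ∈ (boxE n).powerset.filter (fun T => T ≠ ∅ ∧ T.card ≤ m), wt2 n T := by
      refine (Finset.sum_le_sum fun e he => single_ge huu he).trans ?_
      have h2 : ∑ e ∈ boxE n, wt2 n {e} =
          ∑ T ∈ (boxE n).image (fun e => ({e} : Finset Edg)), wt2 n T := by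
        rw [Finset.sum_image]
        intro a _ b _ h
        exact Finset.singleton_injective h
      rw [h2]
      apply Finset.sum_le_sum_of_subset_of_nonneg
      · intro T hT
        rw [Finset.mem_image] at hT
        obtain ⟨e, he, rfl⟩ := hT
        rw [Finset.mem_filter, Finset.mem_powerset]
        refine ⟨Finset.singleton_subset_iff.2 he, Finset.singleton_ne_empty e, ?_⟩
        rw [Finset.card_singleton]
        exact hm
      · intro T _ _
        exact wt2_nonneg n T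
    have h2 := hinf n hn
    simp only [Pe_eq] at h2
    have h3 := sq_sum_le_card_mul_sum_sq (s := boxE n) (f := Pe n)
    have h4 := box_card hn
    have h5 : 0 ≤ ∑ e ∈ boxE n, Pe n e ^ 2 := Finset.sum_nonneg fun _ _ => sq_nonneg _
    have h6 : (ci * (n:ℝ) ^ (3 / 4 : ℝ)) ^ 2 ≤ 18 * (n:ℝ) ^ 2 * ∑ e ∈ boxE n, Pe n e ^ 2 :=
      (pow_le_pow_left₀ (by positivity) h2 2).trans
        (h3.trans (mul_le_mul_of_nonneg_right h4 h5))
    have h7 : ((n:ℝ) ^ (3 / 4 : ℝ)) ^ 2 = (n:ℝ) ^ 2 * (n:ℝ) ^ (-(1 / 2) : ℝ) := by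
      rw [← Real.rpow_natCast, ← Real.rpow_natCast, ← Real.rpow_mul hn0.le,
        ← Real.rpow_add hn0]
      congr 1
      norm_num
    have h8 : ci ^ 2 / 18 * (n:ℝ) ^ (-(1 / 2) : ℝ) ≤ ∑ e ∈ boxE n, Pe n e ^ 2 := by
      rw [mul_pow, h7] at h6
      have hn2 : (0:ℝ) < 18 * (n:ℝ) ^ 2 := by positivity
      refine le_of_mul_le_mul_left ?_ hn2
      refine le_trans (le_of_eq ?_) h6
      ring
    have h9 : (m:ℝ) ^ (2 / 3 : ℝ) ≤ (M0:ℝ) ^ (2 / 3 : ℝ) :=
      Real.rpow_le_rpow hm0.le (by exact_mod_cast hmM.le) (by norm_num)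
    refine le_trans ?_ h1
    rw [← Finset.mul_sum]
    have h10 : ca * ((m:ℝ) ^ (2 / 3 : ℝ) * (n:ℝ) ^ (-(1 / 2) : ℝ)) ≤
        ca * ((M0:ℝ) ^ (2 / 3 : ℝ) * (n:ℝ) ^ (-(1 / 2) : ℝ)) := by gcongr
    refine h10.trans ?_
    have h11 : ca * ((M0:ℝ) ^ (2 / 3 : ℝ) * (n:ℝ) ^ (-(1 / 2) : ℝ)) =
        1 / 4 * (ci ^ 2 / 18 * (n:ℝ) ^ (-(1 / 2) : ℝ)) := by
      rw [hca]
      field_simp
      norm_num
    rw [h11]
    exact mul_le_mul_of_nonneg_left h8 (by norm_num)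

end Pool.Agent.Y433.SN
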